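import Pool.Agent.N553.PP.Super
import Pool.Agent.R484.NCc

/-!
# The parity index and the common factors of the even and the odd part

`C` is a `ℚ`-linear rigid symmetric monoidal category in which the endomorphisms of the unit object are
the rational numbers, for example the category `NChow(k)_ℚ` of noncommutative Chow motives; `R`, `R₀` are
symmetric monoidal additive functors to finite dimensional super vector spaces over fields, for example `HP_±` in
characteristic zero and `TP_±(-)_{1/p}` in characteristic `p`. For a smooth and proper dg category `A` the
endomorphisms `f` of `M = U(A)` are the classes in `K_0(A^op ⊗ A)_ℚ`, and `ctr f` is the Euler characteristic of the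
Hochschild homology of `A` with coefficients in `f`. A *numerical involution* is an endomorphism `w` such that `w ∘ w`
is numerically equivalent to the identity.

A *common map* for `R` and `M` is a linear map `g` from a subspace `N` of `R(M)^+` to the quotient of `R(M)^-` by a
subspace `L`, where `N` and `L` are stable under `End(M)` and `g` commutes with `End(M)`. Its rank is the dimension of a
space which is a subquotient of both `R(M)^+` and `R(M)^-`, as an `End(M)`-module.

1. For every numerical involution `w`, every realisation `R` and every common map `g`
   `|ctr w| + 2 rank g ≤ dim R(M)`.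
2. There are a natural number `ρ`, the parity index of `M`, and one endomorphism `P` of `M`, such that for all
   realisations `R` the number `dim R(M) - ρ` is even, `ρ + 2 rank g ≤ dim R(M)` for all common maps `g`, and the
   following are equivalent: `C⁺(M)` for `R`; `P` realises the parity operator; `dim R(M) = ρ`; `dim R(M) < ρ + 2`; all
   common maps are zero; for each even `y` and odd `z` in `R(M)` some combination of endomorphisms (with coefficients in
   the field of `R`) fixes `y` and kills `z`; all subspaces of `R(M)` which are stable under `End(M)` are graded.

So if the even and the odd part have no common factor in one realisation `R'`, then the same is true in all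
realisations `R` with `dim R(M) ≤ dim R'(M) + 1`, and `C⁺(M)` holds for all of them.

The starting theorem `ParityIndex` has the first four conditions in 2. The proof of 1: `z = (1 + w)/2` has all super traces
of powers equal; let `e` be its spectral projector for the eigenvalue `1`. Then `dim R(M) - ctr w` is twice the sum of the
ranks of `e` on `R(M)^-` and of `1 - e` on `R(M)^+`, and `g` is the sum of its restrictions to `e N` and `(1 - e) N`.
-/

set_option autoImplicit false

open CategoryTheory Limits MonoidalCategory

namespace Pool.Agent.Results.MP_8f22fa_ag.CommonFactors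

open Pool.Agent.Y112.SR Pool.Agent.Y112.KD Pool.Agent.R484.NC Pool.Agent.N553.PP

universe v u w

/-- **The parity index and the common factors.** Here `parity R M` is the operator on `R(M)` which is `1` on the even
and `-1` on the odd part, and `endos R M` is the set of the operators `R(f)` for the endomorphisms `f` of `M`. -/
theorem result {C : Type u} [Category.{v} C] [Preadditive C] [Linear ℚ C] [MonoidalCategory C]
    [MonoidalPreadditive C] [MonoidalLinear ℚ C] [SymmetricCategory C] [RightRigidCategory C]
    (hU : UnitQ C) {K₀ : Type w} [Field K₀] (R₀ : SuperRealisation C K₀) (M : C) :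
    (∀ w : M ⟶ M, NumInvolution hU w → ∀ {K : Type w} [Field K] (R : SuperRealisation C K),
      RankBound (parity R M) (endos R M) |ctr hU w|) ∧
    (∃ (ρ : ℕ) (P : M ⟶ M), ∀ {K : Type w} [Field K] (R : SuperRealisation C K),
      Even (totalDim R M - ρ) ∧ RankBound (parity R M) (endos R M) ρ ∧
      [R.CPlus M, R.H.map P = R.par M, totalDim R M = ρ, totalDim R M < ρ + 2,
        NoCommon (parity R M) (endos R M),
        InvPointwise (parity R M) (endos R M),
        InvSplit (parity R M) (endos R M)].TFAE) := by
  refine ⟨fun w hw {K} _ R N L g hg => common_bound hU R hw g hg, ?_⟩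
  obtain ⟨ρ, h1, h2, -⟩ := exists_index hU R₀
  obtain ⟨P, hP⟩ := h2 M
  refine ⟨ρ M, P, fun {K} _ R => ?_⟩
  obtain ⟨-, h4, h5⟩ := hP R
  obtain ⟨⟨w, hw, hwρ⟩, -⟩ := h1 M
  refine ⟨h4, fun N L g hg => ?_, ?_⟩
  · have h6 := common_bound hU R hw g hg
    rw [hwρ, abs_of_nonneg (by positivity)] at h6
    exact h6
  · have h7 := realisation_tfae hU R M
    have e1 : R.CPlus M ↔ R.H.map P = R.par M := h5.out 0 1
    have e2 : R.CPlus M ↔ totalDim R M = ρ M := h5.out 0 2
    have e3 : R.CPlus M ↔ totalDim R M < ρ M + 2 := h5.out 0 3
    have e4 : R.CPlus M ↔ NoCommon (parity R M) (endos R M) := h7.out 0 4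
    have e5 : R.CPlus M ↔ InvPointwise (parity R M) (endos R M) := h7.out 0 1
    have e6 : R.CPlus M ↔ InvSplit (parity R M) (endos R M) := h7.out 0 3
    tfae_have 1 ↔ 2 := e1
    tfae_have 1 ↔ 3 := e2
    tfae_have 1 ↔ 4 := e3
    tfae_have 1 ↔ 5 := e4
    tfae_have 1 ↔ 6 := e5
    tfae_have 1 ↔ 7 := e6
    tfae_finish

end Pool.Agent.Results.MP_8f22fa_ag.CommonFactors
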