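import Pool.Agent.N164.NC.Rank

/-!
# The noncommutative standard conjecture `C⁺` in terms of the ranks of two trace forms

`C` is a `ℚ`-linear rigid symmetric monoidal category in which the endomorphisms of the unit object are
the rational numbers, for example the category `NChow(k)_ℚ` of noncommutative Chow motives over a perfect
field; `R` is a symmetric monoidal additive functor to finite dimensional super vector spaces over a field
`K`, for example `HP_±` in characteristic zero and `TP_±(-)_{1/p}` in characteristic `p`. For a smooth and
proper dg category `A` the endomorphisms `f` of `M = U(A)` are the classes in `K_0(A^op ⊗ A)_ℚ`, and the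
categorical trace `ctr f` is the Euler characteristic of the Hochschild homology of `A` with coefficients
in `f`, the supertrace in `R`.

Let `tr_+(f)` and `tr_-(f)` be the traces of `f` on the even and the odd part of `R(M)`. These are elements
of `K`, which need not be rational; only `tr_+(f) - tr_-(f) = ctr f` is. Let `r_+` and `r_-` be the ranks of
the two forms `(f, g) ↦ tr_+(f ∘ g)` and `(f, g) ↦ tr_-(f ∘ g)` on the endomorphisms of `M`, with values in
`K`.

1. The algebra of the endomorphisms of `M` modulo numerical equivalence has dimension at most `r_+ + r_-`.
2. The dimension is equal to `r_+ + r_-` if and only if `C⁺(M)` is true: the projector onto the even part of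
   `R(M)` is given by an endomorphism of `M`.
3. `C⁺(M)` is true if and only if there is a combination of endomorphisms `f_i` of `M` with coefficients `c_i`
   in `K` such that `∑ c_i tr_+(f_i ∘ g) = tr_+(g)` and `∑ c_i tr_-(f_i ∘ g) = 0` for all endomorphisms `g`.

So `C⁺(M)`, a statement about homological equivalence with rational coefficients, is a statement about the
pairs of numbers `(tr_+(f ∘ g), tr_-(f ∘ g))`; the existence of an endomorphism of `M` with prescribed
rational traces is not needed.

The proof: if the rank of the supertrace form, which is the dimension in 1, is the sum of the ranks, then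
the two families of functionals can be prescribed independently, and there is a combination `a` as in 3. On
the even part all traces of powers of `1 - a` are zero, on the odd part those of `a`, and so
`1 - (1 - a ^ N) ^ N` is the projector for large `N`. The descent of a central idempotent from `K` to `ℚ` is
`TH133.PW.central_idem_mem` of the starting files.
-/

set_option autoImplicit false

open CategoryTheory Limits MonoidalCategory

namespace Pool.Agent.Results.MP_8f22fa_ag.RankCriterion

open Pool.Agent.Y112.SR Pool.Agent.Y112.KD Pool.Agent.R484.NC Pool.Agent.N164.NC

universe v u w

/-- **The conjecture `C⁺` in terms of the ranks of two trace forms.** -/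
theorem result {C : Type u} [Category.{v} C] [Preadditive C] [Linear ℚ C] [MonoidalCategory C]
    [MonoidalPreadditive C] [MonoidalLinear ℚ C] [SymmetricCategory C] [RightRigidCategory C]
    (hU : UnitQ C) {K : Type w} [Field K] (R : SuperRealisation C K) (M : C) :
    numDim hU M ≤ rk (fun f g : M ⟶ M => evenTrace R (f ≫ g)) +
      rk (fun f g : M ⟶ M => oddTrace R (f ≫ g)) ∧
    (numDim hU M = rk (fun f g : M ⟶ M => evenTrace R (f ≫ g)) +
      rk (fun f g : M ⟶ M => oddTrace R (f ≫ g)) ↔ R.CPlus M) ∧
    (R.CPlus M ↔ (fun g : M ⟶ M => (evenTrace R g, (0 : K))) ∈
      Submodule.span K (Set.range fun f g : M ⟶ M =>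
        (evenTrace R (f ≫ g), oddTrace R (f ≫ g)))) :=
  ⟨(rank_criterion R hU M).1, (rank_criterion R hU M).2, span_criterion R hU M⟩

end Pool.Agent.Results.MP_8f22fa_ag.RankCriterion
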