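import Pool.Agent.N144.NC.Tr

/-!
# The noncommutative standard conjecture `C⁺` in terms of one endomorphism which represents the trace

`C` is a `ℚ`-linear rigid symmetric monoidal category in which the endomorphisms of the unit object are
the rational numbers, for example the category `NChow(k)_ℚ` of noncommutative Chow motives over a perfect
field; `R` is a symmetric monoidal additive functor to finite dimensional super vector spaces over a field
`K`, for example `HP_±` in characteristic zero and `TP_±(-)_{1/p}` in characteristic `p`. For a smooth and
proper dg category `A` the endomorphisms `f` of `M = U(A)` are the classes in `K_0(A^op ⊗ A)_ℚ`, and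
`ctr f` is the Euler characteristic of the Hochschild homology of `A` with coefficients in `f`, a
number that does not depend on `R`; in terms of `R` it is the supertrace.

An endomorphism `w` *represents the trace* if the number `ctr (w ∘ h)` is the trace, without signs, of
`R(h)`, for all endomorphisms `h`. This is a system of linear equations for the class of `w` modulo
numerical equivalence, so there is at most one such class.

**Theorem.** Let `w` represent the trace. Then `ctr (w ∘ w ∘ w)` is at least `dim R(M)`, and the
following are equivalent:
1. the conjecture `C⁺(M)`: the projector onto the even part of `R(M)` is algebraic;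
2. `ctr (w ∘ w ∘ w) = dim R(M)`;
3. `ctr (w ∘ w ∘ w) ≤ dim R(M) + 4`;
4. `w ∘ w` is numerically equivalent to the identity;
5. for all `N ≥ dim R(M)`, `N ≥ 1`, the endomorphism `1 - (1 - z ^ N) ^ N`, where `z = (1 + w) / 2`,
   realises the projector onto the even part.

`C⁺(M)` holds if and only if there is a `w` which represents the trace, with `ctr (w ∘ w ∘ w) ≤ dim R(M) + 4`.

So `C⁺(M)`, a statement about homological equivalence, is equivalent to a statement about finitely many
rational numbers, the traces of products of elements of a basis of `K_0(A^op ⊗ A)_ℚ` modulo numerical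
equivalence and the traces of the elements of the basis on `R(M)`; and there is a gap: if `w` exists and `C⁺(M)`
is false, then `ctr (w ∘ w ∘ w) > dim R(M) + 4`.

The proof uses the gap criterion `R484.NC.gap_criterion` of the starting files (which is not used in
any result) for `z = (1 + w) / 2`; the identity `4 gap(z) = ctr (w ∘ w ∘ w) - dim R(M)` is new. The
parity index of the starting result `ParityIndex` is a supremum over all numerical involutions; here
one endomorphism, given by linear equations, decides. For cohomology theories of varieties an
analogous criterion is `MP_56c18a_ag.TraceCycle` (without the gap).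
-/

set_option autoImplicit false

open CategoryTheory Limits MonoidalCategory

namespace Pool.Agent.Results.MP_8f22fa_ag.TraceRepresentative

open Pool.Agent.Y112.SR Pool.Agent.Y112.KD Pool.Agent.R484.NC Pool.Agent.N144.NC

universe v u w

/-- **The conjecture `C⁺` in terms of an endomorphism which represents the trace.** -/
theorem result {C : Type u} [Category.{v} C] [Preadditive C] [Linear ℚ C] [MonoidalCategory C]
    [MonoidalPreadditive C] [MonoidalLinear ℚ C] [SymmetricCategory C] [RightRigidCategory C]
    (hU : UnitQ C) {K : Type w} [Field K] (R : SuperRealisation C K) (M : C) :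
    (∀ w : M ⟶ M, RepresentsTrace R hU w →
      (totalDim R M : ℚ) ≤ ctr hU (w ≫ w ≫ w) ∧
      List.TFAE [R.CPlus M, ctr hU (w ≫ w ≫ w) = totalDim R M,
        ctr hU (w ≫ w ≫ w) ≤ totalDim R M + 4, NumInvolution hU w,
        ∀ N : ℕ, 1 ≤ N → Module.finrank K (R.H.obj M) ≤ N →
          (2 : K) • R.H.map (lift ((2⁻¹ : ℚ) • (𝟙 M + w)) N) = 𝟙 _ + R.par M]) ∧
    (R.CPlus M ↔
      ∃ w : M ⟶ M, RepresentsTrace R hU w ∧ ctr hU (w ≫ w ≫ w) ≤ totalDim R M + 4) := by
  refine ⟨fun w hw => trace_criterion hU hw, fun h => ?_, ?_⟩
  · obtain ⟨w, hw⟩ := exists_of_cplus hU h
    exact ⟨w, hw, ((trace_criterion hU hw).2.out 0 2).1 h⟩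
  · rintro ⟨w, hw, h⟩
    exact ((trace_criterion hU hw).2.out 2 0).1 h

end Pool.Agent.Results.MP_8f22fa_ag.TraceRepresentative
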